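import Pool.Agent.CvB.IntB

/-!
# Package CvB-DedB: the localised coordinate ring is a Dedekind domain (page section 0)

`intcl`: let `z ∈ L` (`L = FractionRing A` is also the fraction field of `R = A[1/D]`) be
integral over `R`; for some `j`
`D ^ j z` is integral over `A` (clear denominators in the monic equation:
`IsIntegral.exists_multiple_integral_of_isLocalization`), hence over `k[X]` (`A` is integral over
`k[X]`: `AdjoinRoot` of a
monic polynomial), so `D D ^ j z ∈ A` by `conduct`, `z ∈ R`. (`isIntegrallyClosed_iff` with the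
fraction field
`FractionRing A`; `IsFractionRing R L` by
`IsFractionRing.isFractionRing_of_isDomain_of_isLocalization`.)

`ded`: from `dom_CR`, `noeth`, `dimle`, `intcl`.

`inf_CR`: `CR f D` is infinite: `k[X] → CR f D` is injective.
-/

set_option autoImplicit false

namespace Pool.Agent.CvB

open Polynomial Pool.Agent.CvA

variable {k : Type} [Field k] {f : k[X][X]} {d : ℕ} {D : k[X]}

private theorem pow_DedB (h : Ok f d D) :
    Submonoid.powers (AdjoinRoot.of f D) ≤ nonZeroDivisors (CA f) := by
  have := dom_CA h.cv
  refine powers_le_nonZeroDivisors_of_noZeroDivisors fun h0 => h.ne ?_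
  exact of_inj h.cv (h0.trans (map_zero _).symm)

theorem intcl (h : Ok f d D) : IsIntegrallyClosed (CR f D) := by
  have hdom := dom_CA h.cv
  have hdomR := dom_CR h
  have hM := pow_DedB h
  letI : Algebra (CR f D) (FractionRing (CA f)) :=
    IsLocalization.localizationAlgebraOfSubmonoidLe (CR f D) (FractionRing (CA f))
      (Submonoid.powers (AdjoinRoot.of f D)) (nonZeroDivisors (CA f)) hM
  haveI : IsScalarTower (CA f) (CR f D) (FractionRing (CA f)) :=
    IsLocalization.localization_isScalarTower_of_submonoid_le (CR f D) (FractionRing (CA f))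
      (Submonoid.powers (AdjoinRoot.of f D)) (nonZeroDivisors (CA f)) hM
  haveI : IsFractionRing (CR f D) (FractionRing (CA f)) :=
    IsFractionRing.isFractionRing_of_isDomain_of_isLocalization
      (Submonoid.powers (AdjoinRoot.of f D)) (CR f D) (FractionRing (CA f))
  refine (isIntegrallyClosed_iff (FractionRing (CA f))).2 fun {z} hz => ?_
  obtain ⟨⟨m, hm⟩, hm'⟩ := IsIntegral.exists_multiple_integral_of_isLocalization
    (Submonoid.powers (AdjoinRoot.of f D)) z hz
  have hfin : Module.Finite k[X] (CA f) := h.cv.monic.finite_adjoinRoot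
  have hint : Algebra.IsIntegral k[X] (CA f) := inferInstance
  have h1 : IsIntegral k[X] ((⟨m, hm⟩ : Submonoid.powers (AdjoinRoot.of f D)) • z) :=
    isIntegral_trans _ hm'
  obtain ⟨a, ha⟩ := conduct h _ h1
  have h2 : AdjoinRoot.of f D * m ∈ Submonoid.powers (AdjoinRoot.of f D) :=
    mul_mem (Submonoid.mem_powers _) hm
  refine ⟨IsLocalization.mk' (CR f D) a ⟨_, h2⟩, ?_⟩
  have h3 : algebraMap (CA f) (FractionRing (CA f)) (AdjoinRoot.of f D * m) ≠ 0 := by
    intro h0
    exact nonZeroDivisors.ne_zero (hM h2) ((IsFractionRing.injective (CA f)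
      (FractionRing (CA f))) (h0.trans (map_zero _).symm))
  apply mul_right_cancel₀ h3
  rw [IsScalarTower.algebraMap_apply (CA f) (CR f D) (FractionRing (CA f))
    (AdjoinRoot.of f D * m), ← map_mul]
  have h4 := IsLocalization.mk'_spec (CR f D) a
    (⟨_, h2⟩ : Submonoid.powers (AdjoinRoot.of f D))
  rw [h4, ← IsScalarTower.algebraMap_apply (CA f) (CR f D) (FractionRing (CA f)), ha,
    ← IsScalarTower.algebraMap_apply (CA f) (CR f D) (FractionRing (CA f)), map_mul,
    Submonoid.smul_def, Algebra.smul_def]
  ring

theorem ded (h : Ok f d D) : IsDedekindDomain (CR f D) := by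
  have h1 := dom_CR h
  have h2 := noeth f D
  have h3 := dimle h
  have h4 := intcl h
  exact { }

theorem inf_CR (h : Ok f d D) : Infinite (CR f D) := by
  have h1 : Function.Injective (algebraMap (CA f) (CR f D)) :=
    IsLocalization.injective (CR f D) (pow_DedB h)
  exact Infinite.of_injective _ (h1.comp (of_inj h.cv))

end Pool.Agent.CvB
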