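import Pool.Agent.CvA.Defs

/-!
# ALL CURVES: plane curves (definitions)

Page with all proofs: /team-store/allcurves_page.md. Polynomials in two variables are elements of
`k[X][X]`: the outer variable is `y`, the inner one is `x`.

`Td k N`: the polynomials of total degree at most `N`. `top N g`: the form of degree `N` of `g`,
with `x = 1`,
`y = X`. `IsCv f d`: `f` is irreducible, monic in `y` of degree `d`, of total degree `d`.
`Ok f d D`: moreover `D ≠ 0` is a polynomial in `x` which is a combination of `f` and its
derivative with
respect to `y`.
-/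

set_option autoImplicit false

namespace Pool.Agent.CvB

open Polynomial

/-- the polynomials of total degree at most `N` -/
def Td (k : Type) [Field k] (N : ℕ) : Submodule k k[X][X] where
  carrier := {g | ∀ i j, N < i + j → (g.coeff j).coeff i = 0}
  add_mem' := by
    intro a b ha hb i j h
    rw [coeff_add, coeff_add, ha i j h, hb i j h, add_zero]
  zero_mem' := by
    intro i j _
    simp
  smul_mem' := by
    intro c a ha i j h
    rw [coeff_smul, coeff_smul, ha i j h, smul_zero]

variable {k : Type} [Field k]

/-- the form of degree `N`, with `x = 1` and `y = X` -/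
noncomputable def top (N : ℕ) : k[X][X] →ₗ[k] k[X] where
  toFun g := ∑ j ∈ Finset.range (N + 1), C ((g.coeff j).coeff (N - j)) * X ^ j
  map_add' := by
    intro a b
    simp only [coeff_add, C_add, add_mul, Finset.sum_add_distrib]
  map_smul' := by
    intro c a
    rw [RingHom.id_apply, Finset.smul_sum]
    refine Finset.sum_congr rfl fun j _ => ?_
    rw [coeff_smul, coeff_smul, smul_eq_mul, C_mul, mul_assoc, smul_eq_C_mul]

/-- `f` is irreducible and monic in `y`, its degree in `y` and its total degree are `d` -/
structure IsCv (f : k[X][X]) (d : ℕ) : Prop where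
  one_le : 1 ≤ d
  monic : f.Monic
  deg : f.natDegree = d
  tot : f ∈ Td k d
  irr : Irreducible f

/-- a curve with a multiple of the discriminant -/
structure Ok (f : k[X][X]) (d : ℕ) (D : k[X]) : Prop where
  cv : IsCv f d
  ne : D ≠ 0
  comb : ∃ a b : k[X][X], C D = a * f + b * derivative f

/-- the coordinate ring of the curve -/
abbrev CA (f : k[X][X]) : Type := AdjoinRoot f

/-- the ring of the points at infinity -/
abbrev CB (f : k[X][X]) (d : ℕ) : Type := AdjoinRoot (top d f)

/-- the coordinate ring with `D` inverted -/
abbrev CR (f : k[X][X]) (D : k[X]) : Type := Localization.Away (AdjoinRoot.of f D)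

/-- the elements of total degree at most `N` -/
noncomputable def CV (f : k[X][X]) (N : ℕ) : Submodule k (CA f) :=
  (Td k N).map (Ideal.Quotient.mkₐ k (Ideal.span {f})).toLinearMap

/-- the leading form of degree `N` -/
noncomputable def Cl (f : k[X][X]) (hf : f.Monic) (d N : ℕ) : CA f →ₗ[k] CB f d :=
  ((Ideal.Quotient.mkₐ k (Ideal.span {top d f})).toLinearMap ∘ₗ top N) ∘ₗ
    (AdjoinRoot.modByMonicHom hf).restrictScalars k

end Pool.Agent.CvB
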