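import Pool.Agent.CvB.ModB
import Pool.Agent.CvR.RR

/-!
# Package CvB-DimB: the dimension of the spaces `V N` (page section 0, (F2))

`cv_fin`, `cv_dim`. `CV f N` is `k`-isomorphic to the space of the `g ∈ Td k N` of degree `< d`
(`td_mod`: the remainder of
`g` is in this space and has the same class; the map to `AdjoinRoot f` is injective on
polynomials of degree `< d`:
`AdjoinRoot.mk_ne_zero_of_natDegree_lt` or `modByMonicHom`). This space is isomorphic to the
functions
`(Σ j : Fin d, Fin (N + 1 - j)) → k` (`g ↦ (g.coeff j).coeff i`; for `N + 1 ≥ d` no truncation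
problems: `N + 1 - j ≥ 1`),
whose dimension is `∑_{j<d} (N + 1 - j) = d (N + 1) - d (d - 1) / 2 = d N + 1 - pa`
(`CvR.two_pa`, `Finset.sum_range_id`/Gauss).
-/

set_option autoImplicit false

namespace Pool.Agent.CvB

open Polynomial Pool.Agent.CvA

variable {k : Type} [Field k] {f : k[X][X]} {d : ℕ}

/-- the exponents of the monomials -/
private abbrev Ix_DimB (d N : ℕ) : Type := (j : Fin d) × Fin (N + 1 - (j : ℕ))

/-- the monomials -/
private noncomputable def mo_DimB (k : Type) [Field k] (d N : ℕ) (s : Ix_DimB d N) : k[X][X] :=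
  monomial (s.1 : ℕ) (monomial (s.2 : ℕ) (1 : k))

/-- the polynomial with given coefficients -/
private noncomputable def P_DimB (k : Type) [Field k] (d N : ℕ) :
    (Ix_DimB d N → k) →ₗ[k] k[X][X] :=
  Fintype.linearCombination k (mo_DimB k d N)

private theorem coeff_mo_DimB (N : ℕ) (s : Ix_DimB d N) (j i : ℕ) :
    ((mo_DimB k d N s).coeff j).coeff i = if (s.1 : ℕ) = j ∧ (s.2 : ℕ) = i then 1 else 0 := by
  unfold mo_DimB
  rw [coeff_monomial]
  by_cases h1 : (s.1 : ℕ) = j
  · rw [if_pos h1, coeff_monomial]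
    by_cases h2 : (s.2 : ℕ) = i
    · rw [if_pos h2, if_pos ⟨h1, h2⟩]
    · rw [if_neg h2, if_neg fun h => h2 h.2]
  · rw [if_neg h1, if_neg fun h => h1 h.1, coeff_zero]

private theorem coeff_P_DimB (N : ℕ) (c : Ix_DimB d N → k) (j i : ℕ) :
    ((P_DimB k d N c).coeff j).coeff i =
      ∑ s, c s * if (s.1 : ℕ) = j ∧ (s.2 : ℕ) = i then 1 else 0 := by
  unfold P_DimB
  rw [Fintype.linearCombination_apply, finsetSum_coeff, finsetSum_coeff]
  refine Finset.sum_congr rfl fun s _ => ?_
  rw [coeff_smul, coeff_smul, coeff_mo_DimB, smul_eq_mul]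

private theorem coeff_self_DimB (N : ℕ) (c : Ix_DimB d N → k) (s : Ix_DimB d N) :
    ((P_DimB k d N c).coeff s.1).coeff s.2 = c s := by
  rw [coeff_P_DimB, Finset.sum_eq_single s]
  · simp
  · rintro ⟨j, i⟩ _ hs
    rw [if_neg, mul_zero]
    rintro ⟨h1, h2⟩
    apply hs
    obtain ⟨j', i'⟩ := s
    have h3 : j = j' := Fin.ext h1
    subst h3
    have h4 : i = i' := Fin.ext h2
    rw [h4]
  · intro hs
    exact absurd (Finset.mem_univ s) hs

private theorem coeff_ne_DimB (N : ℕ) (c : Ix_DimB d N → k) (j i : ℕ)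
    (h : ¬ (j < d ∧ i < N + 1 - j)) : ((P_DimB k d N c).coeff j).coeff i = 0 := by
  rw [coeff_P_DimB]
  refine Finset.sum_eq_zero fun s _ => ?_
  rw [if_neg, mul_zero]
  rintro ⟨h1, h2⟩
  apply h
  subst h1
  subst h2
  exact ⟨s.1.2, s.2.2⟩

private theorem deg_P_DimB (N : ℕ) (c : Ix_DimB d N → k) : (P_DimB k d N c).degree < d := by
  rw [degree_lt_iff_coeff_zero]
  intro j hj
  ext i
  rw [coeff_ne_DimB N c j i (fun h => absurd h.1 (not_lt.2 hj)), coeff_zero]

/-- the map to the coordinate ring -/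
private noncomputable def Q_DimB (f : k[X][X]) (d N : ℕ) : (Ix_DimB d N → k) →ₗ[k] CA f :=
  (Ideal.Quotient.mkₐ k (Ideal.span {f})).toLinearMap ∘ₗ P_DimB k d N

private theorem deg_f_DimB (h : IsCv f d) : f.degree = d := by
  rw [degree_eq_natDegree h.monic.ne_zero, h.deg]

private theorem inj_DimB (h : IsCv f d) (N : ℕ) : Function.Injective (Q_DimB f d N) := by
  rw [injective_iff_map_eq_zero]
  intro c hc
  have h1 : f ∣ P_DimB k d N c := by
    have h2 : Ideal.Quotient.mk (Ideal.span {f}) (P_DimB k d N c) = 0 := hc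
    rwa [Ideal.Quotient.eq_zero_iff_mem, Ideal.mem_span_singleton] at h2
  have h3 : P_DimB k d N c = 0 := by
    by_contra h4
    have h5 := degree_le_of_dvd h1 h4
    rw [deg_f_DimB h] at h5
    exact absurd (deg_P_DimB N c) (not_lt.2 h5)
  funext s
  have h4 := coeff_self_DimB N c s
  rw [h3] at h4
  rw [← h4]
  simp

private theorem range_DimB (h : IsCv f d) (N : ℕ) :
    LinearMap.range (Q_DimB f d N) = CV f N := by
  apply le_antisymm
  · rintro _ ⟨c, rfl⟩
    refine Submodule.mem_map.2 ⟨P_DimB k d N c, ?_, rfl⟩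
    intro i j hij
    apply coeff_ne_DimB
    rintro ⟨_, h2⟩
    omega
  · intro x hx
    obtain ⟨g, hg, rfl⟩ := Submodule.mem_map.1 hx
    have h1 := td_mod h hg
    refine ⟨fun s => ((g %ₘ f).coeff s.1).coeff s.2, ?_⟩
    have h2 : P_DimB k d N (fun s => ((g %ₘ f).coeff s.1).coeff s.2) = g %ₘ f := by
      ext j i
      by_cases hij : j < d ∧ i < N + 1 - j
      · exact coeff_self_DimB N (fun s => ((g %ₘ f).coeff s.1).coeff s.2)
          (⟨⟨j, hij.1⟩, ⟨i, hij.2⟩⟩ : Ix_DimB d N)
      · rw [coeff_ne_DimB N _ j i hij]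
        by_cases hj : j < d
        · have h3 : N < i + j := by
            by_contra h4
            exact hij ⟨hj, by omega⟩
          exact (h1 i j h3).symm
        · have h3 : (g %ₘ f).degree < d := by
            rw [← deg_f_DimB h]
            exact degree_modByMonic_lt g h.monic
          rw [coeff_eq_zero_of_degree_lt (lt_of_lt_of_le h3 (by exact_mod_cast not_lt.1 hj)),
            coeff_zero]
    have h3 : Ideal.Quotient.mk (Ideal.span {f}) (g %ₘ f) =
        Ideal.Quotient.mk (Ideal.span {f}) g := by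
      rw [Ideal.Quotient.eq, Ideal.mem_span_singleton]
      have h4 := modByMonic_add_div g f
      exact ⟨-(g /ₘ f), by linear_combination h4⟩
    change Ideal.Quotient.mk (Ideal.span {f}) (P_DimB k d N _) = _
    rw [h2]
    exact h3

/-- the isomorphism with the space of the coefficients -/
private noncomputable def eq_DimB (h : IsCv f d) (N : ℕ) : (Ix_DimB d N → k) ≃ₗ[k] CV f N :=
  (LinearEquiv.ofInjective (Q_DimB f d N) (inj_DimB h N)).trans
    (LinearEquiv.ofEq _ _ (range_DimB h N))

theorem cv_fin (h : IsCv f d) (N : ℕ) : FiniteDimensional k (CV f N) :=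
  Module.Finite.equiv (eq_DimB h N)

theorem cv_dim (h : IsCv f d) (N : ℕ) (hN : d ≤ N + 1) :
    Module.finrank k (CV f N) + pa d = d * N + 1 := by
  have h1 : Module.finrank k (CV f N) = ∑ j ∈ Finset.range d, (N + 1 - j) := by
    rw [← (eq_DimB h N).finrank_eq, Module.finrank_fintype_fun_eq_card, Fintype.card_sigma,
      Finset.sum_range fun j => N + 1 - j]
    refine Finset.sum_congr rfl fun j _ => ?_
    rw [Fintype.card_fin]
  have h2 : ∑ j ∈ Finset.range d, (N + 1 - j) + ∑ j ∈ Finset.range d, j = d * (N + 1) := by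
    rw [← Finset.sum_add_distrib]
    have h3 : ∀ j ∈ Finset.range d, N + 1 - j + j = N + 1 := by
      intro j hj
      have := Finset.mem_range.1 hj
      omega
    rw [Finset.sum_congr rfl h3, Finset.sum_const, Finset.card_range, smul_eq_mul]
  have h3 : (∑ j ∈ Finset.range d, j) * 2 = d * (d - 1) := Finset.sum_range_id_mul_two d
  have h4 := CvR.two_pa d
  have h5 := h.one_le
  obtain ⟨e, rfl⟩ : ∃ e, d = e + 1 := ⟨d - 1, by omega⟩
  rw [h1]
  rcases e with _ | e
  · simp only [zero_add, Finset.range_one, Finset.sum_singleton] at h2 h3 h4 ⊢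
    simp at h4
    rw [h4]
    omega
  · rw [show e + 1 + 1 - 1 = e + 1 by omega] at h3 h4
    rw [show e + 1 + 1 - 2 = e by omega] at h4
    nlinarith

end Pool.Agent.CvB
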