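import Pool.Agent.CvB.FltB
import Pool.Agent.CvR.Dim

/-!
# Package CvB-DomB: the coordinate ring is a domain, nonzero ideals have finite colength

`dom_CA`: `f` is irreducible in the factorial ring `k[X][X]`, so it is prime and `AdjoinRoot f =
k[X][X] ⧸ (f)` is a domain
(`AdjoinRoot.isDomain_of_prime`, `Irreducible.prime`). `dom_CR`: localisation of a domain at a
nonzero element:
`AdjoinRoot.of f D ≠ 0` because `of` is injective for monic `f` of positive degree
(`AdjoinRoot.of.injective_of_degree_ne_zero` / `C D` has degree `0 < d` and is not divisible by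
`f`), so its powers are
nonzero divisors.

`noeth`: `CR f D` is noetherian (quotient of a polynomial ring over a noetherian ring,
localisation).
`dimle`: nonzero primes `Q` of `CR f D` are maximal: `Q ∩ A` contains a nonzero element `a ∈ V
M`, so `A ⧸ (Q ∩ A)` is finite
dimensional over `k` (`CvR.bez_le` for `fl h.cv`), an integral domain, so a field
(`isField_of_...` finite dimensional
domain: `IsIntegralDomain`, `FiniteDimensional.isField...`, or `Module.Finite` over a field:
`isField_of_isIntegral_of_isField'`);
so `Q ∩ A` is maximal, hence `Q` is maximal (for primes of a localisation: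
`IsLocalization.orderIsoOfPrime`; or:
`R ⧸ Q` is generated by the image of `A ⧸ (Q ∩ A)` and the inverse of `D`, which is already
there).
-/

set_option autoImplicit false

namespace Pool.Agent.CvB

open Polynomial Pool.Agent.CvA

variable {k : Type} [Field k] {f : k[X][X]} {d : ℕ} {D : k[X]}

theorem dom_CA (h : IsCv f d) : IsDomain (CA f) :=
  AdjoinRoot.isDomain_of_prime h.irr.prime

theorem of_inj (h : IsCv f d) : Function.Injective (AdjoinRoot.of f) := by
  refine AdjoinRoot.of.injective_of_degree_ne_zero fun h0 => ?_
  have h1 : f.natDegree = 0 := natDegree_eq_of_degree_eq_some h0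
  have h2 := h.one_le
  rw [h.deg] at h1
  omega

private theorem pow_DomB (h : Ok f d D) :
    Submonoid.powers (AdjoinRoot.of f D) ≤ nonZeroDivisors (CA f) := by
  have := dom_CA h.cv
  refine powers_le_nonZeroDivisors_of_noZeroDivisors fun h0 => h.ne ?_
  exact of_inj h.cv (h0.trans (map_zero _).symm)

theorem dom_CR (h : Ok f d D) : IsDomain (CR f D) := by
  have := dom_CA h.cv
  exact IsLocalization.isDomain_localization (pow_DomB h)

theorem noeth (f : k[X][X]) (D : k[X]) : IsNoetherianRing (CR f D) :=
  IsLocalization.isNoetherianRing (Submonoid.powers (AdjoinRoot.of f D)) _ inferInstance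

private theorem dim_DomB (h : IsCv f d) : Ring.DimensionLEOne (CA f) := by
  have := dom_CA h
  have hfin : Module.Finite k[X] (CA f) := h.monic.finite_adjoinRoot
  have hint : Algebra.IsIntegral k[X] (CA f) := inferInstance
  refine ⟨fun {Q} hQ0 hQ => ?_⟩
  have hc : Q.comap (algebraMap k[X] (CA f)) ≠ ⊥ := by
    obtain ⟨x, hx, hx0⟩ := Submodule.exists_mem_ne_zero_of_ne_bot hQ0
    exact Ideal.comap_ne_bot_of_integral_mem hx0 hx (hint.isIntegral x)
  have hp : (Q.comap (algebraMap k[X] (CA f))).IsPrime := inferInstance
  exact Ideal.isMaximal_of_isIntegral_of_isMaximal_comap Q (hp.isMaximal hc)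

theorem dimle (h : Ok f d D) : Ring.DimensionLEOne (CR f D) := by
  have := dom_CA h.cv
  have := dim_DomB h.cv
  exact Ring.DimensionLEOne.localization (CR f D) (pow_DomB h)

end Pool.Agent.CvB
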