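import Pool.Agent.CvB.ModB

/-!
# Package CvB-FilB: the filtration (page section 0, (F1), (F3))

`cv_mono`, `cv_exh`, `cv_zero`, `cv_mul`, `cv_gen` follow from `td_mono`, `td_exh`, `td_zero`,
`td_mul`, `td_gen` by applying the
map to `AdjoinRoot f` (a homomorphism of `k`-algebras; `Submodule.map_mul`; `1 : Submodule k A`
is the range of the
algebra map: `Submodule.one_eq_range`, `Submodule.mem_one`). For `cv_gen` note that `1, x, y ∈ CV
f 1`.
`mem_cv`: an element is in `CV f N` iff it is the class of a polynomial in `Td k N`.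
-/

set_option autoImplicit false

namespace Pool.Agent.CvB

open Polynomial

variable {k : Type} [Field k] (f : k[X][X])

theorem mem_cv {N : ℕ} {a : CA f} : a ∈ CV f N ↔ ∃ g ∈ Td k N, AdjoinRoot.mk f g = a :=
  Submodule.mem_map

theorem cv_mono (N : ℕ) : CV f N ≤ CV f (N + 1) :=
  Submodule.map_mono (td_mono (Nat.le_succ N))

theorem cv_exh (a : CA f) : ∃ N, a ∈ CV f N := by
  obtain ⟨g, rfl⟩ := AdjoinRoot.mk_surjective a
  obtain ⟨N, hN⟩ := td_exh g
  exact ⟨N, (mem_cv f).2 ⟨g, hN, rfl⟩⟩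

private theorem cc_td_FilB (c : k) (N : ℕ) : (C (C c) : k[X][X]) ∈ Td k N := by
  intro i j hij
  rw [coeff_C]
  split_ifs with h1
  · rw [coeff_C, if_neg (by omega)]
  · exact coeff_zero i

theorem cv_zero : CV f 0 = 1 := by
  ext a
  rw [mem_cv, Submodule.mem_one]
  constructor
  · rintro ⟨g, hg, rfl⟩
    obtain ⟨c, rfl⟩ := td_zero hg
    exact ⟨c, rfl⟩
  · rintro ⟨c, rfl⟩
    exact ⟨C (C c), cc_td_FilB c 0, rfl⟩

theorem cv_mul {N M : ℕ} {a b : CA f} (ha : a ∈ CV f N) (hb : b ∈ CV f M) :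
    a * b ∈ CV f (N + M) := by
  obtain ⟨g, hg, rfl⟩ := (mem_cv f).1 ha
  obtain ⟨h, hh, rfl⟩ := (mem_cv f).1 hb
  exact (mem_cv f).2 ⟨g * h, td_mul hg hh, map_mul _ _ _⟩

theorem cv_gen (N : ℕ) : CV f (N + 1) ≤ CV f 1 * CV f N := by
  intro u hu
  obtain ⟨g, hg, rfl⟩ := (mem_cv f).1 hu
  obtain ⟨a, ha, b, hb, c, hc, rfl⟩ := td_gen hg
  have h1 : (1 : CA f) ∈ CV f 1 :=
    (mem_cv f).2 ⟨1, by
      have h := cc_td_FilB (1 : k) 1
      rwa [C_1, C_1] at h, map_one _⟩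
  have h2 : AdjoinRoot.mk f (C X) ∈ CV f 1 := by
    refine (mem_cv f).2 ⟨C X, ?_, rfl⟩
    intro i j hij
    rw [coeff_C]
    split_ifs with h3
    · rw [coeff_X, if_neg (by omega)]
    · exact coeff_zero i
  have h3 : AdjoinRoot.mk f X ∈ CV f 1 := by
    refine (mem_cv f).2 ⟨X, ?_, rfl⟩
    intro i j hij
    rw [coeff_X]
    split_ifs with h3
    · rw [coeff_one, if_neg (by omega)]
    · exact coeff_zero i
  rw [map_add, map_add, map_mul, map_mul]
  refine add_mem (add_mem ?_ ?_) ?_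
  · have h4 := Submodule.mul_mem_mul h1 ((mem_cv f).2 ⟨a, ha, rfl⟩)
    rwa [one_mul] at h4
  · exact Submodule.mul_mem_mul h2 ((mem_cv f).2 ⟨b, hb, rfl⟩)
  · exact Submodule.mul_mem_mul h3 ((mem_cv f).2 ⟨c, hc, rfl⟩)

end Pool.Agent.CvB
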