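import Pool.Agent.CvB.LeadB
import Pool.Agent.CvB.DimB

/-!
# Package CvB-FltB: the filtered algebra and the modulus of a plane curve

`fl h`: the structure `Flt`. `md h`: the modulus `D`: `D` is the class of `C D ∈ Td k (natDegree
D)`, its leading form
is the class of `top (natDegree D) (C D) = C (leadingCoeff D)`, a unit (`cl_mk`).
-/

set_option autoImplicit false

namespace Pool.Agent.CvB

open Polynomial Pool.Agent.CvA

variable {k : Type} [Field k] {f : k[X][X]} {d : ℕ} {D : k[X]}

/-- the filtered algebra of a plane curve -/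
noncomputable def fl (h : IsCv f d) : Flt k (CA f) (CB f d) d where
  V := CV f
  l := Cl f h.monic d
  one_le := h.one_le
  mono := cv_mono f
  exh := cv_exh f
  zero := cv_zero f
  fin := cv_fin h
  dim := cv_dim h
  mul := cv_mul f
  gen := cv_gen f
  finB := cb_fin h
  dimB := cb_dim h
  l_one := cl_one h
  l_zero := cl_zero h
  l_succ := cl_succ h
  l_mul := cl_mul h

private theorem c_td_FltB (D : k[X]) : (C D : k[X][X]) ∈ Td k D.natDegree := by
  intro i j hij
  rw [coeff_C]
  by_cases hj : j = 0
  · subst hj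
    rw [if_pos rfl]
    exact coeff_eq_zero_of_natDegree_lt (by omega)
  · rw [if_neg hj, coeff_zero]

private theorem top_c_FltB (D : k[X]) : top D.natDegree (C D) = C D.leadingCoeff := by
  ext j
  rw [top_coeff, coeff_C, coeff_C]
  by_cases hj : j = 0
  · subst hj
    simp
  · rw [if_neg hj, if_neg hj, coeff_zero, ite_self]

theorem md_mem (D : k[X]) : AdjoinRoot.of f D ∈ CV f D.natDegree :=
  (mem_cv f).2 ⟨C D, c_td_FltB D, rfl⟩

theorem md_unit (h : IsCv f d) (hD : D ≠ 0) :
    IsUnit (Cl f h.monic d D.natDegree (AdjoinRoot.of f D)) := by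
  have e : Cl f h.monic d D.natDegree (AdjoinRoot.of f D) =
      AdjoinRoot.mk (top d f) (C D.leadingCoeff) := by
    rw [← top_c_FltB D]
    exact cl_mk h (c_td_FltB D)
  rw [e]
  have hu : IsUnit D.leadingCoeff := isUnit_iff_ne_zero.2 (leadingCoeff_ne_zero.2 hD)
  exact (hu.map (C : k →+* k[X])).map (AdjoinRoot.mk (top d f))

/-- the modulus of a plane curve -/
noncomputable def md (h : Ok f d D) : Md (fl h.cv) where
  D := AdjoinRoot.of f D
  Dl := D.natDegree
  mem := md_mem D
  unit := md_unit h.cv h.ne

instance (h : Ok f d D) : IsLocalization.Away (md h).D (CR f D) :=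
  inferInstanceAs (IsLocalization.Away (AdjoinRoot.of f D) (CR f D))

end Pool.Agent.CvB
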