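import Pool.Agent.CvB.DomB

/-!
# Package CvB-IntB: the localised coordinate ring is integrally closed (page section 0)

`A = CA f`, `L = FractionRing A`, `K = FractionRing k[X]`.
`conduct`: for `z ∈ L` integral over `k[X]`: `D z ∈ A` (the range of `algebraMap A L`). `f` is
the minimal polynomial of the class `y` of `X` over `K` (irreducible by the lemma of Gauss, monic),
`L = K(y)` (every element of `L` is `a/b` with `a`, `b ∈ A`), `L/K` is separable: `D = a f + b f'`
is a unit of `K`. `traceForm_dualSubmodule_adjoin` (Euler) says that the dual of `k[X][y]` for the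
trace form is `f'(y)⁻¹ k[X][y]`, and it contains the integral elements. So `f'(y) z ∈ A`; multiply
by `b(y)`.
-/

set_option autoImplicit false

namespace Pool.Agent.CvB

open Polynomial Pool.Agent.CvA

section

variable {P K A L : Type} [CommRing P] [IsDomain P] [IsIntegrallyClosed P] [Field K] [Algebra P K]
  [IsFractionRing P K] [CommRing A] [Algebra P A] [Field L] [Algebra A L]
  [IsFractionRing A L] [Algebra P L] [IsScalarTower P A L] [Algebra K L] [IsScalarTower P K L]

omit [IsDomain P] [IsIntegrallyClosed P] [IsFractionRing P K] in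
private lemma top_IntB (y : A) (hgen : Algebra.adjoin P {y} = ⊤) :
    IntermediateField.adjoin K {algebraMap A L y} = ⊤ := by
  have hmem : ∀ a : A, algebraMap A L a ∈ IntermediateField.adjoin K {algebraMap A L y} := by
    intro a
    have h1 : Algebra.adjoin P {y} ≤
        ((IntermediateField.adjoin K {algebraMap A L y}).toSubalgebra.restrictScalars P).comap
          (IsScalarTower.toAlgHom P A L) := by
      rw [Algebra.adjoin_le_iff]
      rintro _ rfl
      exact IntermediateField.mem_adjoin_simple_self K _
    have h2 : a ∈ Algebra.adjoin P {y} := by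
      rw [hgen]
      exact Algebra.mem_top
    exact h1 h2
  rw [eq_top_iff]
  intro w _
  obtain ⟨a, b, -, rfl⟩ := IsFractionRing.div_surjective (A := A) w
  exact div_mem (hmem a) (hmem b)

private lemma core_IntB (K : Type) [Field K] [Algebra P K] [IsFractionRing P K] [Algebra K L]
    [IsScalarTower P K L] {f : P[X]} (hf : f.Monic) (hirr : Irreducible f) {y : A}
    (hy : aeval y f = 0) (hgen : Algebra.adjoin P {y} = ⊤) {D : P} (hD : D ≠ 0) {a b : P[X]}
    (hab : C D = a * f + b * derivative f) {z : L} (hz : IsIntegral P z) :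
    ∃ c : A, algebraMap A L c = algebraMap P L D * z := by
  obtain ⟨x, hx⟩ : ∃ x, x = algebraMap A L y := ⟨_, rfl⟩
  have hfx : aeval x f = 0 := by
    rw [hx, aeval_algebraMap_apply, hy, map_zero]
  have hxi : IsIntegral P x := ⟨f, hf, by rwa [← aeval_def]⟩
  have hxK : IsIntegral K x := hxi.tower_top
  have hPK : Function.Injective (algebraMap P K) := IsFractionRing.injective P K
  have hDK : algebraMap P K D ≠ 0 := by
    rw [Ne, map_eq_zero_iff _ hPK]
    exact hD
  have hDL : algebraMap P L D ≠ 0 := by
    rw [IsScalarTower.algebraMap_apply P K L, Ne, map_eq_zero_iff _ (algebraMap K L).injective]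
    exact hDK
  have hmin : minpoly K x = f.map (algebraMap P K) := by
    refine (minpoly.eq_of_irreducible_of_monic
      ((hf.irreducible_iff_irreducible_map_fraction_map).1 hirr) ?_ (hf.map _)).symm
    rw [aeval_map_algebraMap, hfx]
  have htop := top_IntB (K := K) (L := L) y hgen
  rw [← hx] at htop
  -- separable
  have hsep : (minpoly K x).Separable := by
    rw [hmin]
    refine ⟨C (algebraMap P K D)⁻¹ * a.map (algebraMap P K),
      C (algebraMap P K D)⁻¹ * b.map (algebraMap P K), ?_⟩
    have h1 := congrArg (Polynomial.map (algebraMap P K)) hab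
    rw [map_C, Polynomial.map_add, Polynomial.map_mul, Polynomial.map_mul] at h1
    rw [derivative_map, mul_assoc, mul_assoc, ← mul_add, ← h1, ← C_mul, inv_mul_cancel₀ hDK, C_1]
  have hfin : FiniteDimensional K L := by
    have h1 : FiniteDimensional K (IntermediateField.adjoin K {x}) :=
      IntermediateField.adjoin.finiteDimensional hxK
    rw [htop] at h1
    exact LinearEquiv.finiteDimensional (IntermediateField.topEquiv (F := K) (E := L)).toLinearEquiv
  have hsepL : Algebra.IsSeparable K L := by
    have h1 : Algebra.IsSeparable K (IntermediateField.adjoin K {x}) :=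
      (IntermediateField.isSeparable_adjoin_simple_iff_isSeparable (F := K) (E := L)).2 hsep
    rw [htop] at h1
    exact AlgEquiv.Algebra.isSeparable (IntermediateField.topEquiv (F := K) (E := L))
  have hadj : Algebra.adjoin K {x} = ⊤ := by
    rw [← IntermediateField.adjoin_simple_toSubalgebra_of_isAlgebraic hxK.isAlgebraic, htop,
      IntermediateField.top_toSubalgebra]
  have hdual := traceForm_dualSubmodule_adjoin P K hadj hxi
  -- the values
  obtain ⟨δ, hδ⟩ : ∃ δ, δ = aeval x (derivative (minpoly K x)) := ⟨_, rfl⟩
  have hδf : δ = aeval x (derivative f) := by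
    rw [hδ, hmin, derivative_map, aeval_map_algebraMap]
  have hDb : algebraMap P L D = aeval x b * δ := by
    have h1 := congrArg (aeval x) hab
    rw [aeval_C, map_add, map_mul, map_mul, hfx, mul_zero, zero_add, ← hδf] at h1
    exact h1
  have hδ0 : δ ≠ 0 := by
    intro h0
    rw [h0, mul_zero] at hDb
    exact hDL hDb
  have hzd : z ∈ (Algebra.traceForm K L).dualSubmodule
      (Subalgebra.toSubmodule (Algebra.adjoin P {x})) := by
    rw [LinearMap.BilinForm.mem_dualSubmodule]
    intro w hw
    have hwi : IsIntegral P w := by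
      have h1 : Algebra.adjoin P {x} ≤ integralClosure P L := by
        rw [Algebra.adjoin_le_iff]
        rintro _ rfl
        exact hxi
      exact h1 hw
    rw [Algebra.traceForm_apply, Submodule.mem_one]
    exact IsIntegrallyClosed.isIntegral_iff.1 (Algebra.isIntegral_trace (hz.mul hwi))
  rw [hdual, Submodule.mem_smul_pointwise_iff_exists, ← hδ] at hzd
  obtain ⟨s, hs, hsz⟩ := hzd
  have hle : Algebra.adjoin P {x} ≤ (IsScalarTower.toAlgHom P A L).range := by
    rw [Algebra.adjoin_le_iff]
    rintro _ rfl
    exact ⟨y, hx.symm⟩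
  obtain ⟨s', hs'⟩ := hle hs
  have hs'' : algebraMap A L s' = s := hs'
  refine ⟨aeval y b * s', ?_⟩
  rw [map_mul, hs'', ← aeval_algebraMap_apply, ← hx, hDb, ← hsz, smul_eq_mul]
  field_simp

end

variable {k : Type} [Field k] {f : k[X][X]} {d : ℕ} {D : k[X]}

theorem conduct (h : Ok f d D) (z : FractionRing (CA f)) (hz : IsIntegral k[X] z) :
    ∃ a : CA f, algebraMap (CA f) (FractionRing (CA f)) a =
      algebraMap (CA f) (FractionRing (CA f)) (AdjoinRoot.of f D) * z := by
  have hdom := dom_CA h.cv
  have hfs : FaithfulSMul k[X] (CA f) := by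
    rw [faithfulSMul_iff_algebraMap_injective, AdjoinRoot.algebraMap_eq]
    exact of_inj h.cv
  obtain ⟨a, b, hab⟩ := h.comb
  let _ : Algebra (FractionRing k[X]) (FractionRing (CA f)) := FractionRing.liftAlgebra _ _
  have hroot : aeval (AdjoinRoot.root f) f = 0 := by
    rw [AdjoinRoot.aeval_eq, AdjoinRoot.mk_self]
  obtain ⟨c, hc⟩ := core_IntB (FractionRing k[X]) h.cv.monic h.cv.irr hroot
    (AdjoinRoot.adjoinRoot_eq_top) h.ne hab hz
  refine ⟨c, ?_⟩
  rw [hc, IsScalarTower.algebraMap_apply k[X] (CA f) (FractionRing (CA f)),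
    AdjoinRoot.algebraMap_eq]

end Pool.Agent.CvB
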