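import Pool.Agent.CvB.FilB

/-!
# Package CvB-LeadB: the leading forms (page section 0, (F4))

`cb_fin`, `cb_dim`: `AdjoinRoot` of a monic polynomial of degree `d` over `k` (`top_monic`,
`AdjoinRoot.powerBasis'`, `PowerBasis.finrank`).
`cl_mk`: for `g ∈ Td k N`: `Cl f N (mk g) = mk (top N g)`: `Cl` is defined by the remainder `g %ₘ
f`
(`AdjoinRoot.modByMonicHom_mk`), `top_mod`.
`cl_one`: `top 0 1 = 1`. `cl_mul`: `cl_mk`, `top_mul`.
`cl_succ`: let `a` be the class of `g ∈ Td k (N + 1)`, `g' = g %ₘ f` of degree `< d`, in `Td k (N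
+ 1)` (`td_mod`). `Cl a = mk (top (N + 1) g')`
and `top (N + 1) g'` has degree `< d`, so `Cl a = 0` iff `top (N + 1) g' = 0`
(`AdjoinRoot.mk_ne_zero_of_natDegree_lt`,
`top_monic`) iff `g' ∈ Td k N` (`top_succ`). If `a ∈ CV f N` then `a = mk g1`, `g1 ∈ Td k N`, `g'
= g1 %ₘ f ∈ Td k N`. `cl_zero` in the same way
(`top_zero`).
-/

set_option autoImplicit false

namespace Pool.Agent.CvB

open Polynomial

variable {k : Type} [Field k] {f : k[X][X]} {d : ℕ}

theorem cb_fin (h : IsCv f d) : FiniteDimensional k (CB f d) :=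
  (top_monic h).1.finite_adjoinRoot

theorem cb_dim (h : IsCv f d) : Module.finrank k (CB f d) = d := by
  rw [(AdjoinRoot.powerBasis' (top_monic h).1).finrank, AdjoinRoot.powerBasis'_dim,
    (top_monic h).2]

private theorem cl_raw_LeadB (h : IsCv f d) (N : ℕ) (g : k[X][X]) :
    Cl f h.monic d N (AdjoinRoot.mk f g) = AdjoinRoot.mk (top d f) (top N (g %ₘ f)) := by
  have h1 : Cl f h.monic d N (AdjoinRoot.mk f g) =
      AdjoinRoot.mk (top d f) (top N (AdjoinRoot.modByMonicHom h.monic (AdjoinRoot.mk f g))) :=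
    rfl
  rw [h1, AdjoinRoot.modByMonicHom_mk]

theorem cl_mk (h : IsCv f d) {N : ℕ} {g : k[X][X]} (hg : g ∈ Td k N) :
    Cl f h.monic d N (AdjoinRoot.mk f g) = AdjoinRoot.mk (top d f) (top N g) := by
  rw [cl_raw_LeadB h, AdjoinRoot.mk_eq_mk, ← neg_sub]
  exact (dvd_neg).2 (top_mod h hg)

private theorem one_mem_LeadB : (1 : k[X][X]) ∈ Td k 0 := by
  intro i j hij
  rw [coeff_one]
  split_ifs with h
  · rw [coeff_one, if_neg (by omega)]
  · exact coeff_zero i

/-- the leading form of a remainder is zero in the ring at infinity only if it is zero -/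
private theorem top_rem_LeadB (h : IsCv f d) (N : ℕ) (g : k[X][X]) :
    AdjoinRoot.mk (top d f) (top N (g %ₘ f)) = 0 ↔ top N (g %ₘ f) = 0 := by
  refine ⟨fun h1 => ?_, fun h1 => by rw [h1, map_zero]⟩
  refine eq_zero_of_dvd_of_degree_lt (AdjoinRoot.mk_eq_zero.1 h1) ?_
  rw [degree_eq_natDegree (top_monic h).1.ne_zero, (top_monic h).2,
    degree_lt_iff_coeff_zero]
  intro j hj
  rw [top_coeff]
  split_ifs with h2
  · have h3 : (g %ₘ f).coeff j = 0 := by
      refine coeff_eq_zero_of_degree_lt (lt_of_lt_of_le (degree_modByMonic_lt g h.monic) ?_)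
      rw [degree_eq_natDegree h.monic.ne_zero, h.deg]
      exact_mod_cast hj
    rw [h3, coeff_zero]
  · rfl

private theorem mk_rem_LeadB (h : IsCv f d) (g : k[X][X]) :
    AdjoinRoot.mk f (g %ₘ f) = AdjoinRoot.mk f g := by
  have h1 := AdjoinRoot.mk_leftInverse h.monic (AdjoinRoot.mk f g)
  rwa [AdjoinRoot.modByMonicHom_mk] at h1

theorem cl_one (h : IsCv f d) : Cl f h.monic d 0 1 = 1 := by
  rw [← map_one (AdjoinRoot.mk f), cl_mk h one_mem_LeadB]
  have h1 : top 0 (1 : k[X][X]) = 1 := by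
    ext j
    rw [top_coeff]
    by_cases hj : j = 0
    · subst hj
      simp
    · rw [if_neg (by omega), coeff_one, if_neg hj]
  rw [h1, map_one]

theorem cl_zero (h : IsCv f d) (a : CA f) (ha : a ∈ CV f 0) (h0 : Cl f h.monic d 0 a = 0) :
    a = 0 := by
  obtain ⟨g, hg, rfl⟩ := (mem_cv f).1 ha
  rw [cl_raw_LeadB h, top_rem_LeadB h] at h0
  rw [← mk_rem_LeadB h, top_zero (td_mod h hg) h0, map_zero]

theorem cl_succ (h : IsCv f d) (N : ℕ) (a : CA f) (ha : a ∈ CV f (N + 1)) :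
    Cl f h.monic d (N + 1) a = 0 ↔ a ∈ CV f N := by
  obtain ⟨g, hg, rfl⟩ := (mem_cv f).1 ha
  rw [cl_raw_LeadB h, top_rem_LeadB h, top_succ (td_mod h hg)]
  constructor
  · intro h1
    exact (mem_cv f).2 ⟨g %ₘ f, h1, mk_rem_LeadB h g⟩
  · intro h1
    obtain ⟨g1, hg1, h2⟩ := (mem_cv f).1 h1
    have h3 := congrArg (AdjoinRoot.modByMonicHom h.monic) h2
    rw [AdjoinRoot.modByMonicHom_mk, AdjoinRoot.modByMonicHom_mk] at h3
    rw [← h3]
    exact td_mod h hg1

theorem cl_mul (h : IsCv f d) {N M : ℕ} {a b : CA f} (ha : a ∈ CV f N) (hb : b ∈ CV f M) :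
    Cl f h.monic d (N + M) (a * b) = Cl f h.monic d N a * Cl f h.monic d M b := by
  obtain ⟨g, hg, rfl⟩ := (mem_cv f).1 ha
  obtain ⟨g1, hg1, rfl⟩ := (mem_cv f).1 hb
  rw [← map_mul, cl_mk h (td_mul hg hg1), cl_mk h hg, cl_mk h hg1, top_mul hg hg1, map_mul]

end Pool.Agent.CvB
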