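import Pool.Agent.CvB.TdB

/-!
# Package CvB-ModB: division by `f` (page section 0, (F3), (F4))

`top_monic`: `top d f` is monic of degree `d`: the coefficient of `X ^ d` is `(f.coeff d).coeff 0
= 1`.

`td_mod`: for `g ∈ Td k N` there is `s ∈ Td k (N - d)` with `g = f s + g %ₘ f`, `g %ₘ f ∈ Td k
N`, and if `N < d` then `s = 0`. Induction on
`natDegree g`: if it is `< d`, `s = 0`. Otherwise `n = natDegree g ≥ d`, `n ≤ N`, the leading
coefficient `c` has
`natDegree c ≤ N - n`; `g' = g - f * (C c * X ^ (n - d))` has smaller degree, `C c * X ^ (n - d)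
∈ Td k (N - d)`, so `g' ∈ Td k N`
(`td_mul`). Uniqueness of the division (`Polynomial.div_modByMonic_unique`).
The second statement: apply `top N`: for `d ≤ N`, `top N (f s) = top d f * top (N - d) s`.
-/

set_option autoImplicit false

namespace Pool.Agent.CvB

open Polynomial

variable {k : Type} [Field k] {f : k[X][X]} {d : ℕ}

theorem top_monic (h : IsCv f d) : (top d f).Monic ∧ (top d f).natDegree = d := by
  have h1 : (top d f).natDegree ≤ d := by
    rw [natDegree_le_iff_coeff_eq_zero]
    intro j hj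
    rw [top_coeff, if_neg (not_le.2 hj)]
  have h2 : (top d f).coeff d = 1 := by
    have h3 : f.coeff d = 1 := by
      have h4 := h.monic.coeff_natDegree
      rwa [h.deg] at h4
    rw [top_coeff, if_pos le_rfl, h3, Nat.sub_self, coeff_one_zero]
  exact ⟨monic_of_natDegree_le_of_coeff_eq_one d h1 h2,
    natDegree_eq_of_le_of_coeff_ne_zero h1 (by rw [h2]; exact one_ne_zero)⟩

private theorem div_ModB (h : IsCv f d) {N : ℕ} (m : ℕ) : ∀ g : k[X][X], g ∈ Td k N →
    g.natDegree < m → ∃ s r : k[X][X], r + f * s = g ∧ r.degree < f.degree ∧ r ∈ Td k N ∧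
      (s = 0 ∨ d ≤ N ∧ s ∈ Td k (N - d)) := by
  induction m with
  | zero => exact fun g _ h1 => absurd h1 (Nat.not_lt_zero _)
  | succ m ih =>
    intro g hg hgm
    have hd := h.one_le
    by_cases h1 : g.natDegree < d
    · refine ⟨0, g, by rw [mul_zero, add_zero], ?_, hg, Or.inl rfl⟩
      exact degree_lt_degree (by rw [h.deg]; exact h1)
    · have hg0 : g ≠ 0 := by
        rintro rfl
        rw [natDegree_zero] at h1
        omega
      have hfg : f.degree ≤ g.degree := by
        rw [degree_eq_natDegree h.monic.ne_zero, degree_eq_natDegree hg0, h.deg]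
        exact Nat.cast_le.2 (not_lt.1 h1)
      have h2 := div_wf_lemma ⟨hfg, hg0⟩ h.monic
      rw [h.deg] at h2
      set q : k[X][X] := C g.leadingCoeff * X ^ (g.natDegree - d) with hq
      have hlc : g.leadingCoeff ≠ 0 := leadingCoeff_ne_zero.2 hg0
      have hn : g.natDegree ≤ N := by
        by_contra h3
        apply hlc
        ext i
        rw [coeff_zero]
        exact hg i g.natDegree (by omega)
      have hqT : q ∈ Td k (N - d) := by
        intro i j hij
        rw [hq, coeff_C_mul, coeff_X_pow]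
        split_ifs with h3
        · rw [mul_one]
          exact hg i g.natDegree (by omega)
        · rw [mul_zero, coeff_zero]
      have hfq : f * q ∈ Td k N := by
        have h3 := td_mul h.tot hqT
        rwa [show d + (N - d) = N by omega] at h3
      have h4 : (g - f * q).natDegree < g.natDegree := by
        by_cases h5 : g - f * q = 0
        · rw [h5, natDegree_zero]
          omega
        · exact natDegree_lt_natDegree h5 h2
      obtain ⟨s, r, hs, hr, hrT, hsT⟩ := ih (g - f * q) ((Td k N).sub_mem hg hfq) (by omega)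
      refine ⟨q + s, r, ?_, hr, hrT, Or.inr ⟨by omega, ?_⟩⟩
      · rw [mul_add, add_left_comm, hs]
        exact add_sub_cancel _ _
      · rcases hsT with hs0 | ⟨-, hs1⟩
        · rw [hs0, add_zero]
          exact hqT
        · exact (Td k (N - d)).add_mem hqT hs1

private theorem mod_ModB (h : IsCv f d) {N : ℕ} {g : k[X][X]} (hg : g ∈ Td k N) :
    g %ₘ f ∈ Td k N ∧ ∃ s : k[X][X], g - g %ₘ f = f * s ∧ (s = 0 ∨ d ≤ N ∧ s ∈ Td k (N - d)) := by
  obtain ⟨s, r, h1, h2, h3, h4⟩ := div_ModB h (g.natDegree + 1) g hg (Nat.lt_succ_self _)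
  have h5 := (div_modByMonic_unique s r h.monic ⟨h1, h2⟩).2
  rw [h5]
  exact ⟨h3, s, by rw [← h1, add_sub_cancel_left], h4⟩

theorem td_mod (h : IsCv f d) {N : ℕ} {g : k[X][X]} (hg : g ∈ Td k N) : g %ₘ f ∈ Td k N :=
  (mod_ModB h hg).1

theorem top_mod (h : IsCv f d) {N : ℕ} {g : k[X][X]} (hg : g ∈ Td k N) :
    top d f ∣ top N g - top N (g %ₘ f) := by
  obtain ⟨-, s, h1, h2⟩ := mod_ModB h hg
  rw [← map_sub, h1]
  rcases h2 with h2 | ⟨h2, h3⟩
  · rw [h2, mul_zero, map_zero]
    exact dvd_zero _
  · have h4 := top_mul h.tot h3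
    rw [show d + (N - d) = N by omega] at h4
    rw [h4]
    exact Dvd.intro _ rfl

end Pool.Agent.CvB
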