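import Pool.Agent.CvB.Defs

/-!
# Package CvB-PtsB: homomorphisms to a field are points (page section 7)

`card_pts`: `#Hom_k(R, L)` is the number of the `(a, b) ∈ L × L` with `f(a, b) = 0`, `D(a) ≠ 0`
(`evalEval a b`: `a` for the
inner variable, `b` for the outer one). A `k`-algebra homomorphism `φ : Localization.Away u → L`
is a homomorphism
`ψ : AdjoinRoot f → L` with `ψ u` a unit (`IsLocalization.liftAlgHom`, `IsLocalization.Away.lift`,
`IsLocalization.algHom_ext`...). A `k`-algebra homomorphism `ψ : AdjoinRoot f → L` is given by `a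
= ψ (of X)` and
`b = ψ root` (`AdjoinRoot.lift`, `Polynomial.aeval`), with the condition `f(a, b) = 0`
(`AdjoinRoot.lift` needs
`eval₂ (k[X] → L) b f = 0`, which is `evalEval a b (f.map ..) = 0`: `Polynomial.evalEval`,
`eval₂_eq_eval_map`). Build the
equivalence by `Equiv.ofBijective` or `Nat.card_congr`.
-/

set_option autoImplicit false

namespace Pool.Agent.CvB

open Polynomial

variable {k : Type} [Field k]

private theorem val_PtsB (f : k[X][X]) (D : k[X]) (L : Type) [Field L] [Algebra k L]
    (φ : CR f D →ₐ[k] L) (g : k[X][X]) :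
    φ (algebraMap (CA f) (CR f D) (AdjoinRoot.mk f g)) =
      (g.map (mapRingHom (algebraMap k L))).evalEval
        (φ (algebraMap (CA f) (CR f D) (AdjoinRoot.of f X)))
        (φ (algebraMap (CA f) (CR f D) (AdjoinRoot.root f))) := by
  have h : (φ : CR f D →+* L).comp ((algebraMap (CA f) (CR f D)).comp (AdjoinRoot.mk f)) =
      (evalEvalRingHom (φ (algebraMap (CA f) (CR f D) (AdjoinRoot.of f X)))
        (φ (algebraMap (CA f) (CR f D) (AdjoinRoot.root f)))).comp
        (mapRingHom (mapRingHom (algebraMap k L))) := by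
    apply Polynomial.ringHom_ext'
    · apply Polynomial.ringHom_ext'
      · refine RingHom.ext fun c => ?_
        have h1 : algebraMap (CA f) (CR f D) (AdjoinRoot.mk f (C (C c))) =
            algebraMap k (CR f D) c := by
          rw [IsScalarTower.algebraMap_apply k (CA f) (CR f D)]
          rfl
        change φ (algebraMap (CA f) (CR f D) (AdjoinRoot.mk f (C (C c)))) =
          evalEval _ _ ((C (C c)).map (mapRingHom (algebraMap k L)))
        rw [h1, AlgHom.commutes, map_C, coe_mapRingHom, map_C, evalEval_C, eval_C]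
      · change φ (algebraMap (CA f) (CR f D) (AdjoinRoot.of f X)) =
          evalEval _ _ ((C X).map (mapRingHom (algebraMap k L)))
        rw [map_C, coe_mapRingHom, map_X, evalEval_C, eval_X]
    · change φ (algebraMap (CA f) (CR f D) (AdjoinRoot.root f)) =
          evalEval _ _ (X.map (mapRingHom (algebraMap k L)))
      rw [map_X, evalEval_X]
  exact RingHom.congr_fun h g

theorem card_pts (f : k[X][X]) (D : k[X]) (L : Type) [Field L] [Algebra k L] :
    Nat.card (CR f D →ₐ[k] L) = Nat.card {c : L × L //
      (f.map (mapRingHom (algebraMap k L))).evalEval c.1 c.2 = 0 ∧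
        (D.map (algebraMap k L)).eval c.1 ≠ 0} := by
  have key : ∀ φ : CR f D →ₐ[k] L,
      (f.map (mapRingHom (algebraMap k L))).evalEval
        (φ (algebraMap (CA f) (CR f D) (AdjoinRoot.of f X)))
        (φ (algebraMap (CA f) (CR f D) (AdjoinRoot.root f))) = 0 ∧
      (D.map (algebraMap k L)).eval
        (φ (algebraMap (CA f) (CR f D) (AdjoinRoot.of f X))) ≠ 0 := by
    intro φ
    constructor
    · rw [← val_PtsB, AdjoinRoot.mk_self, map_zero, map_zero]
    · have h1 := val_PtsB f D L φ (C D)
      rw [map_C, evalEval_C, coe_mapRingHom] at h1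
      rw [← h1]
      have hu : IsUnit (algebraMap (CA f) (CR f D) (AdjoinRoot.of f D)) :=
        IsLocalization.Away.algebraMap_isUnit (AdjoinRoot.of f D)
      exact (hu.map φ).ne_zero
  refine Nat.card_congr (Equiv.ofBijective
    (fun φ => ⟨(φ (algebraMap (CA f) (CR f D) (AdjoinRoot.of f X)),
      φ (algebraMap (CA f) (CR f D) (AdjoinRoot.root f))), key φ⟩) ⟨?_, ?_⟩)
  · intro φ φ' h
    have h1 := congrArg (fun c => c.1.1) h
    have h2 := congrArg (fun c => c.1.2) h
    dsimp only at h1 h2
    have h3 : (φ : CR f D →+* L) = (φ' : CR f D →+* L) := by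
      refine IsLocalization.ringHom_ext (Submonoid.powers (AdjoinRoot.of f D)) ?_
      refine RingHom.ext fun g => ?_
      obtain ⟨g, rfl⟩ := AdjoinRoot.mk_surjective g
      rw [RingHom.comp_apply, RingHom.comp_apply]
      change φ (algebraMap (CA f) (CR f D) (AdjoinRoot.mk f g)) =
        φ' (algebraMap (CA f) (CR f D) (AdjoinRoot.mk f g))
      rw [val_PtsB, val_PtsB, h1, h2]
    refine AlgHom.ext fun x => ?_
    exact RingHom.congr_fun h3 x
  · rintro ⟨⟨a, b⟩, h1, h2⟩
    dsimp only at h1 h2
    have hev : ∀ g : k[X], eval₂ (algebraMap k L) a g = (g.map (algebraMap k L)).eval a := by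
      intro g
      rw [eval₂_eq_eval_map]
    have h3 : f.eval₂ ((aeval a : k[X] →ₐ[k] L) : k[X] →+* L) b = 0 := by
      rw [← h1]
      have h4 : (eval₂RingHom ((aeval a : k[X] →ₐ[k] L) : k[X] →+* L) b) =
          (evalEvalRingHom a b).comp (mapRingHom (mapRingHom (algebraMap k L))) := by
        apply Polynomial.ringHom_ext'
        · apply Polynomial.ringHom_ext'
          · ext c
            simp
          · simp
        · simp
      exact RingHom.congr_fun h4 f
    let ψ : CA f →ₐ[k] L := AdjoinRoot.liftAlgHom f (aeval a) b h3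
    have hψD : ψ (AdjoinRoot.of f D) = (D.map (algebraMap k L)).eval a := by
      rw [← hev, ← aeval_def]
      exact AdjoinRoot.lift_of h3
    have hψX : ψ (AdjoinRoot.of f X) = a := by
      have : ψ (AdjoinRoot.of f X) = aeval a (X : k[X]) := AdjoinRoot.lift_of h3
      rw [this, aeval_X]
    have hψr : ψ (AdjoinRoot.root f) = b := AdjoinRoot.lift_root h3
    have hu : ∀ y : Submonoid.powers (AdjoinRoot.of f D), IsUnit (ψ y) := by
      rintro ⟨y, n, rfl⟩
      dsimp only
      rw [map_pow, hψD]
      exact (IsUnit.mk0 _ h2).pow n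
    refine ⟨IsLocalization.liftAlgHom (M := Submonoid.powers (AdjoinRoot.of f D)) (f := ψ) hu,
      ?_⟩
    apply Subtype.ext
    refine Prod.ext ?_ ?_
    · dsimp only
      rw [IsLocalization.liftAlgHom_apply]
      exact (IsLocalization.lift_eq _ _).trans hψX
    · dsimp only
      rw [IsLocalization.liftAlgHom_apply]
      exact (IsLocalization.lift_eq _ _).trans hψr

end Pool.Agent.CvB
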