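import Pool.Agent.CvB.Defs

/-!
# Package CvB-TdB: total degree and top forms (page section 0, (F3), (F4))

All statements are about coefficients: `coeff_mul` twice: `((g h).coeff j).coeff i` is the sum of
the
`(g.coeff j1).coeff i1 * (h.coeff j2).coeff i2` over `i1 + i2 = i`, `j1 + j2 = j`.

`td_mul`: if `N + M < i + j` then `N < i1 + j1` or `M < i2 + j2`.
`top_mul`: `top N g` has the coefficient `(g.coeff j).coeff (N - j)` at `X ^ j` for `j ≤ N` (and
`0` for `j > N`). In the
coefficient of `X ^ j` of `top (N + M) (g h)` only the terms with `i1 + j1 = N`, `i2 + j2 = M`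
are not zero.
`top_succ`, `top_zero`: `top N g = 0` iff all coefficients with `i + j = N` vanish.
`td_exh`: take `N` larger than `natDegree g` plus all `natDegree (g.coeff j)`.
`td_zero`: `g` is the constant with the value `(g.coeff 0).coeff 0`.
`td_gen`: split `g` in its constant, the part divisible by `X` (outer variable: `g.divX`, `g = X
* divX g + C (g.coeff 0)`) and
`g.coeff 0 = X * divX + C (const)`.
-/

set_option autoImplicit false

namespace Pool.Agent.CvB

open Polynomial

variable {k : Type} [Field k]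

theorem td_mono {N M : ℕ} (h : N ≤ M) : Td k N ≤ Td k M :=
  fun _ hg i j hij => hg i j (lt_of_le_of_lt h hij)

theorem td_mul {N M : ℕ} {g h : k[X][X]} (hg : g ∈ Td k N) (hh : h ∈ Td k M) :
    g * h ∈ Td k (N + M) := by
  intro i j hij
  rw [coeff_mul, finsetSum_coeff]
  refine Finset.sum_eq_zero fun x hx => ?_
  rw [coeff_mul]
  refine Finset.sum_eq_zero fun y hy => ?_
  rw [Finset.HasAntidiagonal.mem_antidiagonal] at hx hy
  by_cases hc : N < y.1 + x.1
  · rw [hg _ _ hc, zero_mul]
  · rw [hh y.2 x.2 (by omega), mul_zero]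

theorem top_coeff (N j : ℕ) (g : k[X][X]) :
    (top N g).coeff j = if j ≤ N then (g.coeff j).coeff (N - j) else 0 := by
  show (∑ j ∈ Finset.range (N + 1), C ((g.coeff j).coeff (N - j)) * X ^ j).coeff j = _
  rw [finsetSum_coeff]
  simp only [coeff_C_mul_X_pow]
  rw [Finset.sum_ite_eq]
  simp only [Finset.mem_range, Nat.lt_succ_iff]

private theorem inner_TdB {N M : ℕ} {g h : k[X][X]} (hg : g ∈ Td k N) (hh : h ∈ Td k M)
    (x : ℕ × ℕ) (hx : x.1 + x.2 ≤ N + M) :
    (g.coeff x.1 * h.coeff x.2).coeff (N + M - (x.1 + x.2)) =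
      (if x.1 ≤ N then (g.coeff x.1).coeff (N - x.1) else 0) *
        (if x.2 ≤ M then (h.coeff x.2).coeff (M - x.2) else 0) := by
  rw [coeff_mul]
  by_cases h1 : x.1 ≤ N
  · by_cases h2 : x.2 ≤ M
    · rw [if_pos h1, if_pos h2, Finset.sum_eq_single (N - x.1, M - x.2)]
      · intro y hy hne
        rw [Finset.HasAntidiagonal.mem_antidiagonal] at hy
        by_cases hc : N < y.1 + x.1
        · rw [hg _ _ hc, zero_mul]
        · have hc2 : M < y.2 + x.2 := by
            by_contra hcon
            apply hne
            apply Prod.ext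
            · show y.1 = N - x.1
              omega
            · show y.2 = M - x.2
              omega
          rw [hh _ _ hc2, mul_zero]
      · intro hn
        exfalso
        apply hn
        rw [Finset.HasAntidiagonal.mem_antidiagonal]
        show N - x.1 + (M - x.2) = N + M - (x.1 + x.2)
        omega
    · rw [if_neg h2, mul_zero]
      refine Finset.sum_eq_zero fun y _ => ?_
      rw [hh _ _ (by omega), mul_zero]
  · rw [if_neg h1, zero_mul]
    refine Finset.sum_eq_zero fun y _ => ?_
    rw [hg _ _ (by omega), zero_mul]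

theorem top_mul {N M : ℕ} {g h : k[X][X]} (hg : g ∈ Td k N) (hh : h ∈ Td k M) :
    top (N + M) (g * h) = top N g * top M h := by
  ext j
  rw [top_coeff, coeff_mul]
  by_cases hj : j ≤ N + M
  · rw [if_pos hj, coeff_mul, finsetSum_coeff]
    refine Finset.sum_congr rfl fun x hx => ?_
    rw [Finset.HasAntidiagonal.mem_antidiagonal] at hx
    rw [top_coeff, top_coeff, ← inner_TdB hg hh x (by omega), hx]
  · rw [if_neg hj, coeff_mul]
    symm
    refine Finset.sum_eq_zero fun x hx => ?_
    rw [Finset.HasAntidiagonal.mem_antidiagonal] at hx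
    rw [top_coeff, top_coeff]
    by_cases h1 : x.1 ≤ N
    · rw [if_neg (by omega : ¬ x.2 ≤ M), mul_zero]
    · rw [if_neg h1, zero_mul]

theorem top_succ {N : ℕ} {g : k[X][X]} (hg : g ∈ Td k (N + 1)) :
    top (N + 1) g = 0 ↔ g ∈ Td k N := by
  constructor
  · intro h i j hij
    by_cases hc : N + 1 < i + j
    · exact hg i j hc
    · have h1 := congrArg (fun p => coeff p j) h
      simp only [coeff_zero] at h1
      rw [top_coeff, if_pos (by omega)] at h1
      have h2 : N + 1 - j = i := by omega
      rwa [h2] at h1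
  · intro h
    ext j
    rw [top_coeff, coeff_zero]
    split_ifs with hj
    · exact h _ _ (by omega)
    · rfl

theorem top_zero {g : k[X][X]} (hg : g ∈ Td k 0) (h : top 0 g = 0) : g = 0 := by
  ext j i
  rw [coeff_zero, coeff_zero]
  by_cases hc : 0 < i + j
  · exact hg i j hc
  · obtain ⟨rfl, rfl⟩ : i = 0 ∧ j = 0 := by omega
    have h1 := congrArg (fun p => coeff p 0) h
    simp only [coeff_zero] at h1
    rwa [top_coeff, if_pos le_rfl] at h1

theorem td_exh (g : k[X][X]) : ∃ N, g ∈ Td k N := by
  refine ⟨g.natDegree + ∑ j ∈ Finset.range (g.natDegree + 1), (g.coeff j).natDegree, ?_⟩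
  intro i j hij
  by_cases hj : g.natDegree < j
  · rw [coeff_eq_zero_of_natDegree_lt hj, coeff_zero]
  · apply coeff_eq_zero_of_natDegree_lt
    have h1 := Finset.single_le_sum (f := fun j => (g.coeff j).natDegree)
      (fun _ _ => Nat.zero_le _) (Finset.mem_range.2 (show j < g.natDegree + 1 by omega))
    omega

theorem td_zero {g : k[X][X]} (hg : g ∈ Td k 0) : ∃ c : k, g = C (C c) := by
  refine ⟨(g.coeff 0).coeff 0, ?_⟩
  ext j i
  rw [coeff_C]
  split_ifs with hj
  · subst hj
    rw [coeff_C]
    split_ifs with hi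
    · subst hi
      rfl
    · exact hg i 0 (by omega)
  · rw [coeff_zero]
    exact hg i j (by omega)

theorem td_gen {N : ℕ} {g : k[X][X]} (hg : g ∈ Td k (N + 1)) :
    ∃ a ∈ Td k N, ∃ b ∈ Td k N, ∃ c ∈ Td k N, g = a + C X * b + X * c := by
  refine ⟨C (C ((g.coeff 0).coeff 0)), ?_, C (g.coeff 0).divX, ?_, g.divX, ?_, ?_⟩
  · intro i j hij
    rw [coeff_C]
    split_ifs with hj
    · rw [coeff_C, if_neg (by omega)]
    · rw [coeff_zero]
  · intro i j hij
    rw [coeff_C]
    split_ifs with hj
    · subst hj
      rw [coeff_divX]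
      exact hg _ _ (by omega)
    · rw [coeff_zero]
  · intro i j hij
    rw [coeff_divX]
    exact hg _ _ (by omega)
  · have h1 := divX_mul_X_add g
    have h2 := divX_mul_X_add (g.coeff 0)
    calc g = g.divX * X + C (g.coeff 0) := h1.symm
      _ = g.divX * X + C ((g.coeff 0).divX * X + C ((g.coeff 0).coeff 0)) := by rw [h2]
      _ = _ := by
        rw [C_add, C_mul]
        ring

end Pool.Agent.CvB
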